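import Pool.Agent.N198.VI.Main

/-!
# The index law for the variational Hodge conjecture

Let `S` be a smooth connected complex variety with fundamental group `Γ` and function field `k`, and
let `X` be a smooth projective family over `S` (identified with its generic fibre, a variety over
`k`). Assume that the projector onto the even cohomology of the fibres of `X` is given by a relative
cycle (a consequence of the standard conjectures, known for families of surfaces, abelian
varieties, complete intersections and their products), and let `D` be a relative divisor with
nonzero self-intersection number. Let `b` be the sum of the Betti numbers of the fibres of `X`. For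
a point `s` of `S` let `m n` be the dimension of the space of the classes in the middle degree of
`X ^ (2 n + 2)` which are invariant under `Γ` and algebraic on the fibre over `s`, and let `r n` be
the rank of the group of the relative cycles of the same degree modulo numerical equivalence. Then:

1. `0 < r n ≤ m n ≤ (n + 2) ^ (b ^ 2) * r n`;
2. if the invariant classes on `X ^ (2 n + 2)` which are algebraic in `s` come from relative cycles
   (this is the case for a very general point `s`), and if homological and numerical equivalence
   agree on `X ^ (2 n + 2)`, then `m n = r n`;
3. for every `κ`, either all invariant classes on `X ^ (κ + 1)` (of all degrees) which are algebraic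
   in `s` come from relative cycles, so that they are algebraic in all points and the variational
   Hodge conjecture holds for `X ^ (κ + 1)` and `s`, and homological and numerical equivalence agree
   on `X ^ (κ + 1)`, or `m n ≥ (2 - C log (n + 2) / n) r n` for **all** `n ≥ 1`, with
   `C = 2 (κ + 1) b ^ (2 κ + 4)`.

So the variational Hodge conjecture for `X ^ (κ + 1)` and `s` follows from one inequality between two
dimensions on one power of `X`: if for a single `n` more than `1 / (2 - C log (n + 2) / n)` (for
large `n` about 51 percent) of the invariant classes of the middle degree of `X ^ (2 n + 2)` which
are algebraic in `s` come from relative cycles, then it is true.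
-/

set_option autoImplicit false

universe u v w x

open CategoryTheory AlgebraicGeometry

namespace Pool.Agent.Results.MP_e9c0f3_ag.FlatIndexLaw

open Pool.Agent.H914 Pool.Agent.H914.VarClass Pool.Agent.H914.VarClass.Obj Pool.Agent.H447
  Pool.Agent.Y163 Pool.Agent.R940 Pool.Agent.N198.VI

/-- **The index law for the variational Hodge conjecture.** -/
theorem result {k : Type u} [Field k] {𝒱 : VarClass k} {ops : CycleOps 𝒱}
    {W : WeilCohomology.{u, v} ops} {Γ : Type w} [Group Γ] {S : Type x} (F : FlatData W Γ S)
    (hF : IsFlatSystem F) (s : S) (X : 𝒱.Obj) (hX : SignStd W X) (D : X.Cycles) (hD : X.IsCyc 1 D)
    (hbig : Big ops X D) :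
    (∀ n, 0 < relMid ops X n ∧ relMid ops X n ≤ flatMid F s X n ∧
      flatMid F s X n ≤ (n + 2) ^ (totalBetti W X ^ 2) * relMid ops X n) ∧
    (∀ n, FlatAreRelative F s (sq X n) → HomEqNum W (sq X n) →
      flatMid F s X n = relMid ops X n) ∧
    ∀ κ, AllGood F s (pw X κ) ∨
      NearlyTwice (indexConst (totalBetti W X) κ) (flatMid F s X) (relMid ops X) :=
  flat_law hF s hX hD hbig

end Pool.Agent.Results.MP_e9c0f3_ag.FlatIndexLaw
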