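import Mathlib
import Pool.Agent.N171.TG.Kl3
import Pool.Agent.N171.TG.Vh2

/-!
# The variational Hodge conjecture for fibre products with powers of families with a large monodromy
# modulo two

The setting is the one of the file `Pool/Agent/N171/TG/VhPub.lean`: in the intended use `k` is the
function field of a smooth connected complex variety `S`, `W.H X` is the cohomology of the fibre of a
smooth projective family `X` over the base point, with coefficients in a field which contains the 2-adic
numbers, `Γ` is the fundamental group of `S`, and for a point `s` the property `A s` says that the value
in `s` of the section of the local system given by a class fixed by a subgroup of finite index (a flat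
class) is algebraic on the fibre over `s`, with coefficients in `W.K`. The space of the rational flat
classes which are algebraic in `s` generates the space of the flat classes with coefficients in `W.K`
which are algebraic in `s`, so the conjecture with rational coefficients is equivalent to the conjecture
with coefficients in `W.K`.

The families `X i` are finitely many families of odd relative dimension with relative divisors which
satisfy hard Lefschetz and the standard conjectures of Lefschetz and of Hodge type (for instance
families of curves, hypersurfaces or complete intersections of odd dimension), whose transcendental
cohomology is in the middle degree; it is spanned by a lattice over the 2-adic integers of rank `N i`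
which is stable under the monodromy. The other hypothesis on the `X i` is on the finite group of the
monodromy on the lattices MODULO TWO (`LargeModTwo`): `N i ≥ 6`, and modulo two there are `N i + 1` vectors
with mutual products one (in the space of the even subsets of a set with `N i + 2` elements modulo the
whole set they are the pairs `{0, j}`), such that each even permutation of these vectors is the action
of an element of `Γ` which acts trivially on the other lattices modulo two. It holds if the image modulo
two contains the product of the symplectic groups over the field with two elements, and for the
hyperelliptic curves `y ^ 2 = f i (x)` over `S` if `f i` has degree `N i + 1 ≥ 7` and the Galois group of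
the product of the `f i` over the function field contains the product of the alternating groups.

The family `Z` is ARBITRARY; for a stable lattice in its cohomology, of rank `d`, the group `Γ` does not
act by permutations of the vectors through its action on this lattice modulo two, or
`(N i + 1)! > 2 ^ (d ^ 2 + 1)` (`FreeBase`).

**Theorem.** Let `V` be the fibre product over `S` of `Z` with arbitrary powers of the `X i`.

1. The variational Hodge conjecture holds for `V`, in all codimensions, **if and only if** it holds for
   `Z`.
2. All flat classes of even degree on `V` are linear combinations of classes of relative cycles **if and
   only if** this is true for `Z`.

In particular the variational Hodge conjecture holds, in all codimensions, for all fibre products of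
powers of the `X i` (let `Z` be a point) and for all products of such families with a constant family.

Proof. Some element of `Γ` acts by a product of two transpositions on the vectors, its square is
trivial modulo two on the lattice of `X i`, is not a scalar modulo four, and is trivial modulo four on
the other lattices. The logarithms of the conjugates of its powers generate a Lie algebra whose
saturation is the symplectic Lie algebra over the 2-adic integers. These Lie algebras kill all forms on
the lattices with values in the cohomology of `Z` which are equivariant under a subgroup of finite
index. By the first fundamental theorem the flat classes on `V` are combinations of products of classes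
of relative cycles on the powers of the `X i` and classes on `Z`. Homological and numerical equivalence
coincide on the powers of the `X i`, so there are dual bases of the algebraic classes; the coefficients of
a flat class with respect to such a basis are push-forwards of products with relative cycles, so they
are flat, and algebraic in the point `s` if the class is algebraic in `s`. Then they are algebraic in
all points by the conjecture for `Z`.
-/

universe u

namespace Pool.Agent.Results.MP_e9c0f3_ag.ImageModTwo

open Pool.Agent.H914 Pool.Agent.H281R3.HT Pool.Agent.TH125.Gal Pool.Agent.N171.TG.Kp
  Pool.Agent.N171.TG.Vh

/-- **The variational Hodge conjecture for products with powers of varieties with a large monodromy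
modulo two.** -/
theorem result {k : Type u} [Field k] {𝒱 : VarClass k} {ops : CycleOps 𝒱}
    (W : WeilCohomology.{u, 0} ops) [Algebra ℚ_[2] W.K] {Γ : Type} [Group Γ]
    {ι : Type} [Finite ι] (G : Set (GVar W Γ)) (X : ι → GVar W Γ) (D : ∀ i, (X i).X.Cycles)
    (Z : GVar W Γ) {N : ι → ℕ} (b : ∀ i, Fin (N i) → W.H (X i).X)
    (J : ∀ i, Matrix (Fin (N i)) (Fin (N i)) ℤ_[2])
    (ρ : ∀ i, Γ →* Matrix (Fin (N i)) (Fin (N i)) ℤ_[2])
    -- the twists by the character are trivial for the fundamental group
    (h : LatticeSystem 1 G X D Z b J ρ)
    (e : ∀ i, Matrix (Fin (N i)) (Fin (N i + 1)) (ZMod 2)) (h2 : LargeModTwo J ρ e)
    (hZ : FreeBase Z.act ρ e)
    -- the classes which are algebraic in the point `s`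
    {S : Type} (A : S → Property W) (hA : ∀ s, IsClassSystem (A s))
    -- the fibre product of `Z` with powers of the `X i`
    (L : List (ι × ℕ)) (hL : (L.map Prod.fst).Nodup) (V : GVar W Γ) (hV : IsTower X Z L V) :
    (VariationalHodge A V ↔ VariationalHodge A Z) ∧ (FlatAlgebraic V ↔ FlatAlgebraic Z) := by
  classical
  have := Fintype.ofFinite ι
  have h1 := Pool.Agent.N171.TG.Kl.kSys_of_large h h2 hZ
  refine vh_main h1 (fun g => ?_) hA hL hV
  apply Units.ext
  simp [Pool.Agent.N171.TG.Kp.twist]

end Pool.Agent.Results.MP_e9c0f3_ag.ImageModTwo
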