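import Pool.Agent.N179.VH.Fin

/-!
# The variational Hodge conjecture for the fibre products of an arbitrary family with members of an
# independent set of families

Let `S` be a smooth connected complex variety, `Γ` its fundamental group, and `𝒱` the class of the
smooth projective families over `S` (given by their generic fibres over the function field of `S`, or
over its algebraic closure if one allows finite coverings of `S`). Let `W` be the cohomology `H(Y)` of the
fibre over a base point, with coefficients in a field `K` isomorphic to `ℂ`; `Γ` acts on it. For a point
`s` of `S` let `A s Y j ⊆ H^(2 j)(Y)` be the `K`-span of the classes which are algebraic on the fibre `Y_s`
(transported along a path; choose one path for every `s`). It contains the classes of relative cycles and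
is stable under products, pull-backs and push-forwards (`IsFibre`). The variational Hodge conjecture
(Q1) for `Y` and its pull-backs to the finite coverings of `S` says (`VarHodge`): all classes in
`A s Y j` which are fixed by a subgroup of finite index of `Γ` are in `A t Y j`, for all `s`, `t` and `j`.
(With rational coefficients this is the same statement, since both sides are given by rational
subspaces.)

A vector of a representation is *semi-invariant* if a subgroup of finite index multiplies it by a
character. Let `V_i`, `i ∈ ι`, be any set of variations of Hodge structure (local systems) over `S` such
that the representations `End V_i` of `Γ` are semisimple (always true by Deligne), and which are pairwise
independent: for `i ≠ j` every equivariant linear map `End V_i → End V_j` has its values in the span of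
the semi-invariant vectors. For instance `V_i = R^1 π_* ℚ` for pairwise not isogenous (over all finite
coverings of `S`), not isotrivial families of elliptic curves, for families of abelian varieties of odd
dimension, pairwise not isogenous, with monodromy group Zariski dense in `Sp`, or the transcendental
part of `R^2 π_* ℚ` for families of K3 surfaces with big monodromy of odd rank.

Let `P_a` be families with cohomology generated by `V_(i_a)` and by semi-invariant classes, for
instance **any fibre power** of the family `i`, such that all semi-invariant classes are combinations of
classes of relative cycles (`Factor`): for the examples this is the first fundamental theorem of
invariant theory.

**Theorem.** Let `Z` be an **arbitrary** smooth projective family over `S`. There is a finite set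
`E = E(Z)` of indices, with at most `(b - b') / 2` elements, where `b` is the sum of the Betti numbers of
the fibres of `Z` and `b'` is the dimension of the span of the semi-invariant classes, such that for all
fibre products `Y = P_1 × ... × P_n × Z'` with pairwise different indices `i_a ∉ E`, and all families `Z'`
whose cohomology is generated by the cohomology of `Z` (for instance `Z' = Z` and the fibre powers of
`Z`):

**the variational Hodge conjecture for `Y` is equivalent to the variational Hodge conjecture for `Z'`.**

The set `E` depends only on the monodromy representation on `H(Z)` (and not on the cycles, the system
`A`), and the exceptional members may be moved to the base, as `E(V_j) ⊆ {j}`: in every fibre product of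
`Z` with powers of members of the set all members but at most `(b - b') / 2` can be split off.

Examples.

* Let `Z` be **any family of varieties of dimension at most three** (the conjecture is true for `Z`, by
  the theorem of Lefschetz on `(1,1)`-classes and hard Lefschetz). The variational Hodge conjecture is
  true for `E_1^(n_1) × ... × E_m^(n_m) × Z`, all codimensions and all `n_i`, for all families `E_i` of
  elliptic curves in a given set of pairwise not isogenous and not isotrivial families with at most
  `(b - b') / 2` exceptions; for instance at most `g` exceptions if `Z` is a family of curves of
  genus `g`. The Hodge conjecture is not known for the fibres, already for `E_1 × E_2 × Z` with a family of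
  threefolds `Z`.
* `Z` constant: `b = b'`, there are no exceptions; and constant families satisfy the conjecture.

The proof: the slices on `P` of a class on `P × Y'` which is fixed by a subgroup of finite index are
combinations of semi-invariant classes (the engine of `MP_021685_ag.IndependenceFromSquares` applied to
the monodromy representation), so combinations of relative cycles on `P`; the components on `Y'` with
respect to a basis of the relative cycles are obtained by the product with the dual cycles and
push-forward, so they are algebraic over `s` if the class is, and fixed by a subgroup of finite index;
then they are algebraic over `t`.
-/

set_option autoImplicit false

universe u

namespace Pool.Agent.Results.MP_e9c0f3_ag.IndependentFamilies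

open Pool.Agent.H914 Pool.Agent.N179.GR.S Pool.Agent.N179.VH

/-- **The variational Hodge conjecture, independent families, and an arbitrary family.** -/
theorem result {k : Type u} [Field k] {𝒱 : VarClass k} {ops : CycleOps 𝒱}
    {W : WeilCohomology.{u, 0} ops} (hK : Nonempty (W.K ≃+* ℂ)) {Γ : Type} [Group Γ]
    {ι : Type} {V : ι → GRep W.K Γ} (hV : Family V) :
    ∃ E : GRep W.K Γ → Set ι, VarSplitting V E :=
  final hK hV

end Pool.Agent.Results.MP_e9c0f3_ag.IndependentFamilies
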