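import Pool.Agent.N174.Lef.VMain

/-!
# A Lefschetz theorem for the variational Hodge conjecture

Let `S` be a smooth connected complex variety, and let `f : X ⟶ Y` be a morphism of smooth
projective families over `S` such that the vanishing cohomology `E` of the fibres (the kernel of
the push-forward) is in the middle degree, and irreducible under all subgroups of finite index of
the fundamental group `Γ` of `S`. Suppose that some element of `Γ` acts trivially on the cohomology
of `Y` and `Z` and by a Picard-Lefschetz formula on `E`, and that the retraction of `f^*` along `E`
is given by relative algebraic cycles. If the variational Hodge conjecture holds for the family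
`Y ^ n × Z` over `S` and its finite coverings, then it holds for the family `X ^ n × Z`, in all
codimensions. There is no condition on `n` if the relative dimension of `X` is odd; if it is even,
the condition is `n < dim E`.

For constant families `Y` and `Z` the hypothesis on `Y ^ n × Z` is trivial. So the variational
Hodge conjecture holds for `X ^ n × Z` if `Y` and `Z` are arbitrary constant varieties and `X` is a
Lefschetz pencil of sections of `Y` by an ample divisor (where `Y` satisfies the Lefschetz standard
conjecture) or a family of double coverings of `Y` with a node.
-/

open CategoryTheory Pool.Agent.H914 Pool.Agent.R920.MT Pool.Agent.N174.Lef.Hdg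
  Pool.Agent.N174.Lef.Var

universe u v w x

namespace Pool.Agent.Results.MP_e9c0f3_ag.VariationalLefschetz

/-- **The Lefschetz theorem for the variational Hodge conjecture.** -/
theorem result {k : Type u} [Field k] {𝒱 : VarClass k} {ops : CycleOps 𝒱}
    {W : WeilCohomology.{u, v} ops} (hW : RatCoeff W) {Γ : Type w} [Group Γ] {S : Type x}
    {A : S → Property W} (hA : ∀ s, IsClassSystem (A s)) {X Y Z V V' : AVar W Γ} {n : ℕ}
    {f : X.X ⟶ Y.X} (h : IsLefschetz (IsCycleClass W) X Y f) (hn : HasNode X Y Z f)
    (hE : LargeIfEven W f n) (hV : IsPowProd X Z n V) (hV' : IsPowProd Y Z n V')
    (hY : VariationalHodge A V') : VariationalHodge A V :=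
  variational hW hA h hn hE hV hV' hY

end Pool.Agent.Results.MP_e9c0f3_ag.VariationalLefschetz
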